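import Pool.Agent.H47.Chv.Fam
import Pool.Agent.H61.Chv.HS
import Pool.Agent.H60.Flow.Cor

/-!
# The inequality for down-sets
-/

set_option autoImplicit false
set_option linter.unusedSectionVars false

open Finset

namespace Pool.Agent.H47.Chv

open Pool.Agent.H60.Flow

variable {n : ℕ}

/-- The compression of the multiplication by `f`. -/
theorem trace_bound (f : Finset (Fin n) → ℝ) (hf : Monotone f) (ha : Antip f) (I : Finset (Finset (Fin n)))
    (hI : ∀ A B, A ⊆ B → B ∈ I → A ∈ I) :
    2 * ∑ A ∈ I, sqp f A ≤ ∑ T, hat f T ^ 2 * ((I.filter (fun B => symmDiff B T ∈ I)).card : ℝ) := by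
  set P := I.filter (fun y => 0 < f y) with hPd
  obtain ⟨h, u1, u2, u3, u4⟩ := exists_family hI f hf P (Finset.filter_subset _ _)
  let g : {y // y ∈ P} × Bool → Finset (Fin n) → ℝ := fun j Y => if j.2 then h j.1 Y else h j.1 Yᶜ
  have h0 : ∀ j, ∀ S, S ∉ univ.filter (fun S : Finset (Fin n) => Sᶜ ∈ I) → hat (g j) S = 0 := by
    rintro ⟨y, b⟩ S hS
    have hS' : Sᶜ ∉ I := fun hc => hS (Finset.mem_filter.2 ⟨Finset.mem_univ _, hc⟩)
    cases b
    · show hat (fun Y => h y Yᶜ) S = 0
      rw [hat_compl, u2 y y.2 S hS', mul_zero]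
    · exact u2 y y.2 S hS'
  have hzero : ∀ y y' : {y // y ∈ P}, ∀ Y, h y Y * h y' Yᶜ = 0 := by
    intro y y' Y
    by_cases h1 : f Y < f y
    · rw [u1 y y.2 Y h1, zero_mul]
    · have hy := (Finset.mem_filter.1 y.2).2
      have hy' := (Finset.mem_filter.1 y'.2).2
      have : f Yᶜ < f y' := by rw [ha Y]; linarith
      rw [u1 y' y'.2 _ this, mul_zero]
  have h1 : ∀ j j', av (fun Y => g j Y * g j' Y) = if j = j' then 1 else 0 := by
    rintro ⟨y, b⟩ ⟨y', b'⟩
    have key : av (fun Y => h y Y * h y' Y) = if y = y' then 1 else 0 := by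
      split_ifs with hyy
      · subst hyy
        rw [← u3 y y.2]
        exact av_congr fun Y => by ring
      · exact u4 y y.2 y' y'.2 (fun e => hyy (Subtype.ext e))
    cases b <;> cases b'
    · show av (fun Y => h y Yᶜ * h y' Yᶜ) = _
      rw [av_compl (fun Y => h y Y * h y' Y), key]
      simp [Prod.ext_iff]
    · show av (fun Y => h y Yᶜ * h y' Y) = _
      have : ∀ Y, h y Yᶜ * h y' Y = 0 := fun Y => by rw [mul_comm]; exact hzero y' y Y
      rw [av_congr this, av_const]; simp
    · show av (fun Y => h y Y * h y' Yᶜ) = _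
      rw [av_congr (hzero y y'), av_const]; simp
    · show av (fun Y => h y Y * h y' Y) = _
      rw [key]; simp [Prod.ext_iff]
  have hmain := Pool.Agent.H61.Chv.hs _ f g h0 h1
  rw [Pool.Agent.H61.Chv.count] at hmain
  refine le_trans ?_ hmain
  have hlow : ∀ y : {y // y ∈ P}, f y ≤ av (fun Y => f Y * h y Y ^ 2) := by
    intro y
    have e1 : f y = av (fun Y => f y * h y Y ^ 2) := by rw [av_mul_left, u3 y y.2, mul_one]
    rw [e1]
    refine av_mono fun Y => ?_
    by_cases h2 : f Y < f y
    · rw [u1 y y.2 Y h2]; simp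
    · exact mul_le_mul_of_nonneg_right (not_lt.1 h2) (sq_nonneg _)
  have hlow2 : ∀ j : {y // y ∈ P} × Bool, f j.1 ^ 2 ≤ (av (fun Y => f Y * g j Y ^ 2)) ^ 2 := by
    rintro ⟨y, b⟩
    have hy := (Finset.mem_filter.1 y.2).2
    have hl := hlow y
    cases b
    · have e1 : av (fun Y => f Y * g (y, false) Y ^ 2) = - av (fun Y => f Y * h y Y ^ 2) := by
        rw [← av_compl, ← av_neg]
        refine av_congr fun Y => ?_
        show f Yᶜ * h y Yᶜᶜ ^ 2 = _
        rw [compl_compl, ha Y]; ring
      rw [e1, neg_sq]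
      exact pow_le_pow_left₀ hy.le hl 2
    · exact pow_le_pow_left₀ hy.le hl 2
  refine le_trans (le_of_eq ?_) (Finset.sum_le_sum fun j _ => hlow2 j)
  rw [Fintype.sum_prod_type]
  simp only [Finset.sum_const, Finset.card_univ, Fintype.card_bool]
  rw [← Finset.smul_sum, Finset.sum_coe_sort P (fun y => f y ^ 2), hPd, Finset.sum_filter, nsmul_eq_mul]
  push_cast
  congr 1
  refine Finset.sum_congr rfl fun A _ => ?_
  unfold sqp
  split_ifs with hA
  · rw [max_eq_left hA.le]
  · rw [max_eq_right (not_lt.1 hA)]; ring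

/-- The inequality over a down-set. -/
theorem core (f : Finset (Fin n) → ℝ) (hf : Monotone f) (ha : Antip f) (I : Finset (Finset (Fin n)))
    (hI : ∀ A B, A ⊆ B → B ∈ I → A ∈ I) : ∑ A ∈ I, sqp f A ≤ ∑ A ∈ I, til f A := by
  have h1 := trace_bound f hf ha I hI
  have h2 : ∑ A ∈ I, til f A = ∑ i, lam f i * ((I.filter (fun B => i ∈ B)).card : ℝ) := by
    unfold til
    have : ∀ A : Finset (Fin n), ∑ i ∈ A, lam f i = ∑ i, if i ∈ A then lam f i else 0 := fun A => by simp
    simp only [this]
    rw [Finset.sum_comm]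
    refine Finset.sum_congr rfl fun i _ => ?_
    rw [← Finset.sum_filter, Finset.sum_const, nsmul_eq_mul, mul_comm]
  have h3 : ∑ T, hat f T ^ 2 * ((I.filter (fun B => symmDiff B T ∈ I)).card : ℝ) ≤
      2 * ∑ i, lam f i * ((I.filter (fun B => i ∈ B)).card : ℝ) := by
    rw [sum_lam_mul, Finset.mul_sum]
    refine Finset.sum_le_sum fun T _ => ?_
    by_cases hT : T.Nonempty
    · rw [dif_pos hT]
      have h4 := Pool.Agent.H61.Chv.count_le I T (T.max' hT) (Finset.max'_mem T hT)
      have h5 : ((I.filter (fun B => symmDiff B T ∈ I)).card : ℝ) ≤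
          2 * ((I.filter (fun B => T.max' hT ∈ B)).card : ℝ) := by exact_mod_cast h4
      nlinarith [sq_nonneg (hat f T)]
    · rw [Finset.not_nonempty_iff_eq_empty.1 hT, hat_odd ha (T := ∅) (by simp)]
      simp
  rw [h2]
  linarith

/-- An antitone weight is a combination of indicators of down-sets. -/
theorem sum_mul_nonneg (φ : Finset (Fin n) → ℝ) (h0 : ∑ A, φ A = 0)
    (hφ : ∀ I : Finset (Finset (Fin n)), (∀ A B, A ⊆ B → B ∈ I → A ∈ I) → 0 ≤ ∑ A ∈ I, φ A) :
    ∀ (k : ℕ) (g : Finset (Fin n) → ℝ), Antitone g → (univ.image g).card ≤ k → 0 ≤ ∑ A, g A * φ A := by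
  intro k
  induction k with
  | zero =>
    intro g _ hk
    have : (univ.image g).Nonempty := ⟨g ∅, Finset.mem_image_of_mem _ (Finset.mem_univ _)⟩
    exact absurd this.card_pos (by omega)
  | succ k ih =>
    intro g hg hk
    have hne : (univ.image g).Nonempty := ⟨g ∅, Finset.mem_image_of_mem _ (Finset.mem_univ _)⟩
    set M := (univ.image g).max' hne with hM
    have hgM : ∀ A, g A ≤ M := fun A => Finset.le_max' _ _ (Finset.mem_image_of_mem _ (Finset.mem_univ _))
    have hMm : M ∈ univ.image g := Finset.max'_mem _ hne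
    by_cases hne2 : ((univ.image g).erase M).Nonempty
    · set M' := ((univ.image g).erase M).max' hne2 with hM'
      have hM'm : M' ∈ (univ.image g).erase M := Finset.max'_mem _ hne2
      have hlt : M' < M := lt_of_le_of_ne (Finset.le_max' _ _ (Finset.mem_of_mem_erase hM'm))
        (Finset.ne_of_mem_erase hM'm)
      have hval : ∀ A, g A ≠ M → g A ≤ M' := fun A hA =>
        Finset.le_max' _ _ (Finset.mem_erase.2 ⟨hA, Finset.mem_image_of_mem _ (Finset.mem_univ _)⟩)
      set g' : Finset (Fin n) → ℝ := fun A => min (g A) M' with hg'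
      have hg'a : Antitone g' := fun A B hAB => min_le_min_right _ (hg hAB)
      have hcard : (univ.image g').card ≤ k := by
        have hsub : univ.image g' ⊆ (univ.image g).erase M := by
          intro x hx
          obtain ⟨A, _, rfl⟩ := Finset.mem_image.1 hx
          by_cases hA : g A = M
          · have : g' A = M' := by
              show min (g A) M' = M'
              rw [hA]; exact min_eq_right hlt.le
            rw [this]; exact hM'm
          · have : g' A = g A := min_eq_left (hval A hA)
            rw [this]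
            exact Finset.mem_erase.2 ⟨hA, Finset.mem_image_of_mem _ (Finset.mem_univ _)⟩
        have h5 := Finset.card_le_card hsub
        rw [Finset.card_erase_of_mem hMm] at h5
        omega
      have h6 := ih g' hg'a hcard
      have h7 := hφ (univ.filter (fun A => g A = M)) (by
        intro A B hAB hB
        rw [Finset.mem_filter] at hB ⊢
        exact ⟨Finset.mem_univ _, le_antisymm (hgM A) (hB.2 ▸ hg hAB)⟩)
      have h8 : ∑ A, g A * φ A = ∑ A, g' A * φ A + (M - M') * ∑ A ∈ univ.filter (fun A => g A = M), φ A := by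
        rw [Finset.sum_filter, Finset.mul_sum, ← Finset.sum_add_distrib]
        refine Finset.sum_congr rfl fun A _ => ?_
        by_cases hA : g A = M
        · have : g' A = M' := by
            show min (g A) M' = M'
            rw [hA]; exact min_eq_right hlt.le
          rw [this, if_pos hA, hA]; ring
        · have : g' A = g A := min_eq_left (hval A hA)
          rw [this, if_neg hA]; ring
      rw [h8]
      have := mul_nonneg (sub_nonneg.2 hlt.le) h7
      linarith
    · have hconst : ∀ A, g A = M := by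
        intro A
        by_contra hA
        exact hne2 ⟨g A, Finset.mem_erase.2 ⟨hA, Finset.mem_image_of_mem _ (Finset.mem_univ _)⟩⟩
      simp only [hconst, ← Finset.mul_sum, h0, mul_zero, le_refl]

theorem sum_til (f : Finset (Fin n) → ℝ) (ha : Antip f) : ∑ A, til f A = ∑ A, sqp f A := by
  have h1 := av_mul_til (fun _ => (1 : ℝ)) f
  have h6 : av f = 0 := by
    have := hat_odd ha (T := ∅) (by simp)
    rwa [hat_empty] at this
  have h7 : ∑ i, lam f i * kap (fun _ => (1 : ℝ)) i = 0 := by
    refine Finset.sum_eq_zero fun i _ => ?_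
    have : kap (fun _ : Finset (Fin n) => (1 : ℝ)) i = 0 := by
      unfold kap
      exact hat_const 1 (Finset.singleton_nonempty i)
    rw [this, mul_zero]
  have h8 : av (fun A => (1 : ℝ) * til f A) = av (til f) := av_congr fun A => one_mul _
  rw [h8, h6, h7, av_const] at h1
  rw [sum_eq_av, sum_eq_av, h1, av_sqp ha]
  ring

/-- **Q1.** -/
theorem q1 (f : Finset (Fin n) → ℝ) (hf : Monotone f) (ha : Antip f) : Flows (til f) (sqp f) := by
  refine flows_of_le (fun A => til_nonneg f A) (fun A => sq_nonneg _) fun K hK => ?_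
  have h1 := sum_mul_nonneg (fun A => til f A - sqp f A) (by
      rw [Finset.sum_sub_distrib, sum_til f ha, sub_self])
    (fun I hI => by
      rw [Finset.sum_sub_distrib]
      exact sub_nonneg.2 (core f hf ha I hI)) _ (fun A => - K A) (fun A B hAB => neg_le_neg (hK hAB)) le_rfl
  have h2 : ∑ A, - K A * (til f A - sqp f A) = ∑ A, K A * sqp f A - ∑ A, K A * til f A := by
    rw [← Finset.sum_sub_distrib]
    exact Finset.sum_congr rfl fun A _ => by ring
  rw [h2] at h1
  linarith

end Pool.Agent.H47.Chv
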