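import Pool.Agent.H60.Flow.Cube

/-!
# An adapted orthonormal family

`I` is a down-set, `v` is monotone, and `H` is the space of the functions whose Fourier coefficients vanish at
all `S` with `Sᶜ ∉ I`.
-/

set_option autoImplicit false
set_option linter.unusedSectionVars false

open Finset

namespace Pool.Agent.H47.Chv

open Pool.Agent.H60.Flow

variable {ι : Type*} [Fintype ι] [DecidableEq ι]

/-- A character as a combination of indicators of `Y ⊆ Tᶜ`, `T ⊆ S`. -/
theorem ch_expand (S Y : Finset ι) :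
    ch S Y = ∑ T ∈ S.powerset, (-2 : ℝ) ^ T.card * (if Y ⊆ Tᶜ then 1 else 0) := by
  unfold ch
  have h1 : ∀ i ∈ S, sg Y i = (if i ∈ Y then 0 else (-2 : ℝ)) + 1 := by
    intro i _
    unfold sg
    split_ifs <;> norm_num
  rw [Finset.prod_congr rfl h1, Finset.prod_add]
  refine Finset.sum_congr rfl fun T _ => ?_
  rw [Finset.prod_const_one, mul_one]
  by_cases h : Y ⊆ Tᶜ
  · rw [if_pos h, mul_one, ← Finset.prod_const]
    refine Finset.prod_congr rfl fun i hi => ?_
    rw [if_neg]
    intro hiY
    exact (Finset.mem_compl.1 (h hiY)) hi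
  · rw [if_neg h, mul_zero]
    obtain ⟨i, hiY, hiT⟩ := Finset.not_subset.1 h
    have hiT' : i ∈ T := by simpa using hiT
    exact Finset.prod_eq_zero hiT' (if_pos hiY)

theorem hat_eq_zero_of {I : Finset (Finset ι)} (hI : ∀ A B, A ⊆ B → B ∈ I → A ∈ I) {h : Finset ι → ℝ}
    (hh : ∀ B, B ∉ I → ∑ Y, (if Y ⊆ B then h Y else 0) = 0) {S : Finset ι} (hS : Sᶜ ∉ I) : hat h S = 0 := by
  unfold hat av
  rw [div_eq_zero_iff]; left
  simp only [ch_expand, Finset.mul_sum]
  rw [Finset.sum_comm]
  refine Finset.sum_eq_zero fun T hT => ?_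
  have hT' : Tᶜ ∉ I := fun hc => hS (hI _ _ (Finset.compl_subset_compl.2 (Finset.mem_powerset.1 hT)) hc)
  have h2 := hh _ hT'
  calc ∑ Y, h Y * ((-2 : ℝ) ^ T.card * (if Y ⊆ Tᶜ then 1 else 0))
      = (-2 : ℝ) ^ T.card * ∑ Y, (if Y ⊆ Tᶜ then h Y else 0) := by
        rw [Finset.mul_sum]; refine Finset.sum_congr rfl fun Y _ => ?_
        split_ifs <;> ring
    _ = 0 := by rw [h2, mul_zero]

/-- One more vector. -/
theorem exists_vec {I : Finset (Finset ι)} (hI : ∀ A B, A ⊆ B → B ∈ I → A ∈ I) (v : Finset ι → ℝ)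
    (hv : Monotone v) (s : Finset (Finset ι)) (a : Finset ι) (haI : a ∈ I) (has : a ∉ s) (hsI : s ⊆ I)
    (hmin : ∀ x ∈ s, v a ≤ v x) (u : Finset ι → Finset ι → ℝ) :
    ∃ h : Finset ι → ℝ, (∀ Y, v Y < v a → h Y = 0) ∧ (∀ S, Sᶜ ∉ I → hat h S = 0) ∧
      (∀ x ∈ s, av (fun Y => h Y * u x Y) = 0) ∧ av (fun Y => h Y ^ 2) = 1 := by
  let Ψ : (Finset ι → ℝ) →ₗ[ℝ] (Finset ι → ℝ) :=
    { toFun := fun h B => if B ∈ s then av (fun Y => h Y * u B Y) else if v B < v a then h B else
        if B ∈ I then 0 else ∑ Y, (if Y ⊆ B then h Y else 0)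
      map_add' := by
        intro h h'
        funext B
        simp only [Pi.add_apply]
        split_ifs
        · rw [← av_add]; exact av_congr fun Y => by ring
        · rfl
        · rw [add_zero]
        · rw [← Finset.sum_add_distrib]
          refine Finset.sum_congr rfl fun Y _ => ?_
          split_ifs <;> simp
      map_smul' := by
        intro c h
        funext B
        simp only [Pi.smul_apply, smul_eq_mul, RingHom.id_apply]
        split_ifs
        · rw [← av_mul_left]; exact av_congr fun Y => by ring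
        · rfl
        · rw [mul_zero]
        · rw [Finset.mul_sum]
          refine Finset.sum_congr rfl fun Y _ => ?_
          split_ifs <;> simp }
  have hΨ : ∀ h B, Ψ h B = if B ∈ s then av (fun Y => h Y * u B Y) else if v B < v a then h B else
        if B ∈ I then 0 else ∑ Y, (if Y ⊆ B then h Y else 0) := fun _ _ => rfl
  have hns : ¬ Function.Surjective Ψ := by
    intro hs
    obtain ⟨h, hh⟩ := hs (Pi.single a 1)
    have h1 := congrFun hh a
    rw [hΨ, if_neg has, if_neg (lt_irrefl _), if_pos haI, Pi.single_eq_same] at h1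
    exact zero_ne_one h1
  have hni : ¬ Function.Injective Ψ := fun hi => hns (LinearMap.injective_iff_surjective.1 hi)
  have hker : LinearMap.ker Ψ ≠ ⊥ := fun hk => hni (LinearMap.ker_eq_bot.1 hk)
  obtain ⟨h, hh, hne⟩ := Submodule.exists_mem_ne_zero_of_ne_bot hker
  rw [LinearMap.mem_ker] at hh
  have hq : 0 < av (fun Y => h Y ^ 2) := by
    have h1 : ∃ Y, h Y ≠ 0 := by
      by_contra hc
      push Not at hc
      exact hne (funext hc)
    obtain ⟨Y, hY⟩ := h1
    unfold av
    refine div_pos ?_ card_pos'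
    exact Finset.sum_pos' (fun _ _ => sq_nonneg _) ⟨Y, Finset.mem_univ _, by positivity⟩
  have h1 : ∀ Y, v Y < v a → h Y = 0 := by
    intro Y hY
    have h2 := congrFun hh Y
    have h3 : Y ∉ s := fun hs => absurd (hmin Y hs) (not_le.2 hY)
    rw [hΨ, if_neg h3, if_pos hY] at h2
    exact h2
  have h2 : ∀ B, B ∉ I → ∑ Y, (if Y ⊆ B then h Y else 0) = 0 := by
    intro B hB
    by_cases hBa : v B < v a
    · refine Finset.sum_eq_zero fun Y _ => ?_
      split_ifs with hYB
      · exact h1 Y (lt_of_le_of_lt (hv hYB) hBa)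
      · rfl
    · have h3 := congrFun hh B
      rw [hΨ, if_neg (fun hs => hB (hsI hs)), if_neg hBa, if_neg hB] at h3
      exact h3
  have h3 : ∀ x ∈ s, av (fun Y => h Y * u x Y) = 0 := by
    intro x hx
    have h4 := congrFun hh x
    rw [hΨ, if_pos hx] at h4
    exact h4
  set q := Real.sqrt (av (fun Y => h Y ^ 2)) with hqd
  have hq0 : 0 < q := Real.sqrt_pos.2 hq
  have hq2 : q ^ 2 = av (fun Y => h Y ^ 2) := Real.sq_sqrt hq.le
  refine ⟨fun Y => q⁻¹ * h Y, fun Y hY => by simp only [h1 Y hY, mul_zero], fun S hS => ?_, fun x hx => ?_, ?_⟩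
  · rw [hat_mul_left, hat_eq_zero_of hI h2 hS, mul_zero]
  · have : av (fun Y => q⁻¹ * h Y * u x Y) = q⁻¹ * av (fun Y => h Y * u x Y) := by
      rw [← av_mul_left]; exact av_congr fun Y => by ring
    rw [this, h3 x hx, mul_zero]
  · have : av (fun Y => (q⁻¹ * h Y) ^ 2) = q⁻¹ ^ 2 * av (fun Y => h Y ^ 2) := by
      rw [← av_mul_left]; exact av_congr fun Y => by ring
    rw [this, ← hq2, ← mul_pow, inv_mul_cancel₀ hq0.ne', one_pow]

/-- The adapted orthonormal family. -/
theorem exists_family {I : Finset (Finset ι)} (hI : ∀ A B, A ⊆ B → B ∈ I → A ∈ I) (v : Finset ι → ℝ)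
    (hv : Monotone v) (P : Finset (Finset ι)) (hP : P ⊆ I) :
    ∃ h : Finset ι → Finset ι → ℝ, (∀ y ∈ P, ∀ Y, v Y < v y → h y Y = 0) ∧
      (∀ y ∈ P, ∀ S, Sᶜ ∉ I → hat (h y) S = 0) ∧ (∀ y ∈ P, av (fun Y => h y Y ^ 2) = 1) ∧
      (∀ y ∈ P, ∀ y' ∈ P, y ≠ y' → av (fun Y => h y Y * h y' Y) = 0) := by
  revert hP
  refine Finset.induction_on_min_value v P ?_ ?_
  · intro _
    exact ⟨fun _ _ => 0, by simp, by simp, by simp, by simp⟩
  · intro a s has hmin ih hP
    obtain ⟨u, u1, u2, u3, u4⟩ := ih (fun x hx => hP (Finset.mem_insert_of_mem hx))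
    obtain ⟨h, e1, e2, e3, e4⟩ := exists_vec hI v hv s a (hP (Finset.mem_insert_self a s)) has
      (fun x hx => hP (Finset.mem_insert_of_mem hx)) hmin u
    refine ⟨fun y => if y = a then h else u y, ?_, ?_, ?_, ?_⟩
    · intro y hy Y hY
      by_cases hya : y = a
      · subst hya
        simp only [if_pos]
        exact e1 Y hY
      · simp only [if_neg hya]
        exact u1 y (Finset.mem_of_mem_insert_of_ne hy hya) Y hY
    · intro y hy S hS
      by_cases hya : y = a
      · subst hya
        simp only [if_pos]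
        exact e2 S hS
      · simp only [if_neg hya]
        exact u2 y (Finset.mem_of_mem_insert_of_ne hy hya) S hS
    · intro y hy
      by_cases hya : y = a
      · subst hya
        simp only [if_pos]
        exact e4
      · simp only [if_neg hya]
        exact u3 y (Finset.mem_of_mem_insert_of_ne hy hya)
    · intro y hy y' hy' hne
      by_cases hya : y = a
      · subst hya
        have hy'a : y' ≠ y := fun e => hne e.symm
        simp only [if_neg hy'a, if_true]
        exact e3 y' (Finset.mem_of_mem_insert_of_ne hy' hy'a)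
      · by_cases hy'a : y' = a
        · subst hy'a
          simp only [if_neg hya, if_true]
          have h5 := e3 y (Finset.mem_of_mem_insert_of_ne hy hya)
          rw [← h5]
          exact av_congr fun Y => by ring
        · simp only [if_neg hya, if_neg hy'a]
          exact u4 y (Finset.mem_of_mem_insert_of_ne hy hya) y' (Finset.mem_of_mem_insert_of_ne hy' hy'a) hne

end Pool.Agent.H47.Chv
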